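import Pool.Agent.Work.MP_223b32_tc.Interface

/-!
# Existence of the extension of degree `n`
-/

namespace Pool.Agent.Work.TC

theorem stmt_EXT : Stmt_EXT := by
  intro F _ _ n hn
  have : NeZero n := ⟨hn.ne'⟩
  have : Fact (ringChar F).Prime := ⟨CharP.char_is_prime F (ringChar F)⟩
  exact ⟨FiniteField.Extension F (ringChar F) n, inferInstance, Fintype.ofFinite _, inferInstance,
    FiniteField.finrank_extension F (ringChar F) n⟩

end Pool.Agent.Work.TC
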