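import Pool.Agent.Work.MP_223b32_tc.Interface

/-!
# The symmetry of the bits
-/

namespace Pool.Agent.Work.TC.DSYM

open Polynomial

variable {F K : Type} [Field F] [Fintype F] [Field K] [Fintype K] [DecidableEq K] [Algebra F K]

omit [Fintype K] [DecidableEq K] in
lemma mem_range_of_pow_eq (a : K) (h : a ^ Fintype.card F = a) :
    a ∈ (algebraMap F K).range := by
  classical
  by_contra hcon
  have hq : 1 < Fintype.card F := Fintype.one_lt_card
  have hne : (X ^ Fintype.card F - X : K[X]) ≠ 0 := FiniteField.X_pow_card_sub_X_ne_zero K hq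
  have hdeg : (X ^ Fintype.card F - X : K[X]).natDegree = Fintype.card F :=
    FiniteField.X_pow_card_sub_X_natDegree_eq K hq
  have hsub : insert a (Finset.univ.image (algebraMap F K)) ⊆
      (X ^ Fintype.card F - X : K[X]).roots.toFinset := by
    intro x hx
    rw [Multiset.mem_toFinset, mem_roots hne, IsRoot.def]
    simp only [eval_sub, eval_pow, eval_X]
    rcases Finset.mem_insert.1 hx with rfl | hx
    · rw [h, sub_self]
    · obtain ⟨y, -, rfl⟩ := Finset.mem_image.1 hx
      rw [← map_pow, FiniteField.pow_card, sub_self]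
  have hcard := Finset.card_le_card hsub
  rw [Finset.card_insert_of_notMem, Finset.card_image_of_injective _ (algebraMap F K).injective,
    Finset.card_univ] at hcard
  · have h2 := (Multiset.toFinset_card_le (X ^ Fintype.card F - X : K[X]).roots).trans
      (card_roots' _)
    rw [hdeg] at h2
    omega
  · intro hmem
    obtain ⟨y, -, hy⟩ := Finset.mem_image.1 hmem
    exact hcon ⟨y, hy⟩

omit [DecidableEq K] in
lemma pow_ne (n : ℕ) (hn : n.Prime) (hK : Module.finrank F K = n) (a : K)
    (ha : a ∉ (algebraMap F K).range) (k : ℕ) (hk : 1 ≤ k) (hkn : k < n) :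
    a ^ (Fintype.card F ^ k) ≠ a := by
  intro h
  have hcard : Fintype.card K = Fintype.card F ^ n := by
    rw [← hK]; exact Module.card_eq_pow_finrank
  have h1 : Function.IsPeriodicPt (fun x : K => x ^ Fintype.card F) k a := by
    unfold Function.IsPeriodicPt Function.IsFixedPt
    rw [pow_iterate]
    exact h
  have h2 : Function.IsPeriodicPt (fun x : K => x ^ Fintype.card F) n a := by
    unfold Function.IsPeriodicPt Function.IsFixedPt
    rw [pow_iterate, ← hcard]
    exact FiniteField.pow_card a
  have h3 := h1.gcd h2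
  have hcop : Nat.gcd k n = 1 :=
    ((Nat.Prime.coprime_iff_not_dvd hn).2 (Nat.not_dvd_of_pos_of_lt hk hkn)).symm
  rw [hcop] at h3
  apply ha
  apply mem_range_of_pow_eq
  simpa [Function.IsPeriodicPt, Function.IsFixedPt] using h3

omit [Algebra F K] in
lemma char_pow (hF : ringChar F ≠ 2) (x : K) (k : ℕ) :
    quadraticChar K (x ^ (Fintype.card F ^ k)) = quadraticChar K x := by
  rw [map_pow]
  have hodd : Odd (Fintype.card F ^ k) := (Nat.odd_iff.2 (FiniteField.odd_card_of_char_ne_two hF)).pow
  obtain ⟨m, hm⟩ := hodd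
  rw [hm, pow_succ, pow_mul]
  by_cases hx : x = 0
  · simp [hx]
  · rw [quadraticChar_sq_one hx, one_pow, one_mul]

end DSYM

open DSYM in
theorem stmt_DSYM : Stmt_DSYM := by
  intro F K _ _ _ _ _ _ hF n hn hn2 hK a ha k hk hkn
  have hcard : Fintype.card K = Fintype.card F ^ n := by
    rw [← hK]; exact Module.card_eq_pow_finrank
  have hqodd : Odd (Fintype.card F) :=
    Nat.odd_iff.2 (FiniteField.odd_card_of_char_ne_two hF)
  have hKchar : ringChar K ≠ 2 := by
    rw [← Algebra.ringChar_eq F K]; exact hF
  have hsum : (n - k) + k = n := Nat.sub_add_cancel hkn.le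
  -- the key identity
  have hkey : (a ^ (Fintype.card F ^ (n - k)) - a) ^ (Fintype.card F ^ k) =
      (-1) * (a ^ (Fintype.card F ^ k) - a) := by
    obtain ⟨p, hp⟩ := CharP.exists F
    have hpp : p.Prime := CharP.char_is_prime F p
    have : Fact p.Prime := ⟨hpp⟩
    obtain ⟨f, -, hf⟩ := FiniteField.card F p
    have : CharP K p := charP_of_injective_algebraMap (algebraMap F K).injective p
    have hpow : Fintype.card F ^ k = p ^ (f * k) := by rw [hf, pow_mul]
    rw [hpow, sub_pow_char_pow, ← hpow, ← pow_mul, ← pow_add, hsum, ← hcard,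
      FiniteField.pow_card]
    ring
  have hchi : quadraticChar K (a ^ (Fintype.card F ^ (n - k)) - a) =
      quadraticChar K (-1) * quadraticChar K (a ^ (Fintype.card F ^ k) - a) := by
    rw [← map_mul, ← hkey, char_pow hF]
  have hx : a ^ (Fintype.card F ^ k) - a ≠ 0 :=
    sub_ne_zero.2 (pow_ne n hn hK a ha k hk hkn)
  have hneg : quadraticChar K (-1) = if Fintype.card F % 4 = 3 then -1 else 1 := by
    rw [quadraticChar_neg_one hKchar, hcard, ZMod.χ₄_nat_eq_if_mod_four]
    have hn' : Odd n := hn.odd_of_ne_two hn2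
    obtain ⟨m, hm⟩ := hn'
    have hmod : Fintype.card F ^ n % 4 = Fintype.card F % 4 := by
      rw [hm, pow_succ, pow_mul, Nat.mul_mod, Nat.pow_mod, Nat.pow_mod (Fintype.card F) 2]
      have h4 : Fintype.card F % 4 = 1 ∨ Fintype.card F % 4 = 3 := by
        obtain ⟨j, hj⟩ := hqodd
        omega
      rcases h4 with h4 | h4 <;> simp [h4]
    have hodd : ¬ Fintype.card F ^ n % 2 = 0 := by
      have : Odd (Fintype.card F ^ n) := hqodd.pow
      rw [Nat.odd_iff] at this
      omega
    rw [if_neg hodd, hmod]
    have h4 : Fintype.card F % 4 = 1 ∨ Fintype.card F % 4 = 3 := by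
      obtain ⟨j, hj⟩ := hqodd
      omega
    rcases h4 with h4 | h4 <;> simp [h4]
  unfold dl eps
  rcases quadraticChar_dichotomy hx with h | h <;> rw [hchi, hneg, h] <;>
    by_cases h4 : Fintype.card F % 4 = 3 <;> simp [h4, Nat.ModEq]

end Pool.Agent.Work.TC
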