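import Pool.Agent.Work.MP_223b32_tc.Interface

/-!
# Few primes `n` for which `2` has small order
-/

namespace Pool.Agent.Work.TC.ORD

open Finset

lemma card_primeFactors_lt (k : ℕ) : (2 ^ k - 1).primeFactors.card ≤ k := by
  rcases Nat.eq_zero_or_pos k with rfl | hk
  · simp
  have h1 : 0 < 2 ^ k - 1 := by
    have : 2 ^ 1 ≤ 2 ^ k := Nat.pow_le_pow_right (by norm_num) hk
    omega
  have h2 : ∏ p ∈ (2 ^ k - 1).primeFactors, p ≤ 2 ^ k - 1 :=
    Nat.le_of_dvd h1 (Nat.prod_primeFactors_dvd _)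
  have h3 : 2 ^ (2 ^ k - 1).primeFactors.card ≤ ∏ p ∈ (2 ^ k - 1).primeFactors, p := by
    apply Finset.pow_card_le_prod
    intro p hp
    exact (Nat.prime_of_mem_primeFactors hp).two_le
  have h4 : 2 ^ (2 ^ k - 1).primeFactors.card < 2 ^ k := by omega
  exact ((Nat.pow_lt_pow_iff_right (by norm_num)).1 h4).le

lemma subset (y : ℕ) : {n : ℕ | n.Prime ∧ n ≠ 2 ∧ orderOf (2 : ZMod n) ≤ y} ⊆
    ((Icc 1 y).biUnion fun k => (2 ^ k - 1).primeFactors : Finset ℕ) := by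
  rintro n ⟨hn, hn2, ho⟩
  have : Fact n.Prime := ⟨hn⟩
  have h2 : (2 : ZMod n) ≠ 0 := by
    intro h
    have : ((2 : ℕ) : ZMod n) = 0 := by exact_mod_cast h
    rw [ZMod.natCast_eq_zero_iff] at this
    exact hn2 ((Nat.prime_dvd_prime_iff_eq hn Nat.prime_two).1 this)
  have hpos : 0 < orderOf (2 : ZMod n) := by
    rw [orderOf_pos_iff]
    rw [isOfFinOrder_iff_pow_eq_one]
    exact ⟨n - 1, Nat.sub_pos_of_lt hn.one_lt, ZMod.pow_card_sub_one_eq_one h2⟩
  have hdvd : n ∣ 2 ^ orderOf (2 : ZMod n) - 1 := by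
    rw [← ZMod.natCast_eq_zero_iff, Nat.cast_sub Nat.one_le_two_pow]
    push_cast
    rw [pow_orderOf_eq_one, sub_self]
  have hne : 2 ^ orderOf (2 : ZMod n) - 1 ≠ 0 := by
    have : 2 ^ 1 ≤ 2 ^ orderOf (2 : ZMod n) := Nat.pow_le_pow_right (by norm_num) hpos
    omega
  simp only [Finset.coe_biUnion, Set.mem_iUnion, Finset.mem_coe]
  exact ⟨orderOf (2 : ZMod n), Finset.mem_Icc.2 ⟨hpos, ho⟩,
    Nat.mem_primeFactors.2 ⟨hn, hdvd, hne⟩⟩

end ORD

open Finset in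
theorem stmt_ORD : Stmt_ORD := by
  intro y
  refine ⟨(Finset.finite_toSet _).subset (ORD.subset y), ?_⟩
  calc _ ≤ ((Icc 1 y).biUnion fun k => (2 ^ k - 1).primeFactors : Finset ℕ).card := by
        rw [← Set.ncard_coe_finset]
        exact Set.ncard_le_ncard (ORD.subset y) (Finset.finite_toSet _)
    _ ≤ ∑ k ∈ Icc 1 y, (2 ^ k - 1).primeFactors.card := Finset.card_biUnion_le
    _ ≤ ∑ k ∈ Icc 1 y, y := by
        apply Finset.sum_le_sum
        intro k hk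
        exact (ORD.card_primeFactors_lt k).trans (Finset.mem_Icc.1 hk).2
    _ = y ^ 2 := by simp [sq]

end Pool.Agent.Work.TC
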